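import Mathlib
import Pool.Agent.Lib.helper22.Niel

set_option autoImplicit false

namespace Pool.Agent.H.MP_9fd1ce_al
open FreeGroup Pool.Agent.Lib.helper22.Niel

inductive Pos (a b : F2) : F2 → F2 → Prop
  | b1 : Pos a b a b
  | b2 : Pos a b b a
  | l {p q : F2} : Pos a b p q → Pos a b (p * q) q
  | r {p q : F2} : Pos a b p q → Pos a b p (p * q)

theorem Pos.cast {a b p q p' q' : F2} (h : Pos a b p q) (h1 : p' = p) (h2 : q' = q) :
    Pos a b p' q' := h1 ▸ h2 ▸ h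

theorem Pos.swap {a b p q : F2} (h : Pos a b p q) : ∃ g, Pos a b (g * q * g⁻¹) (g * p * g⁻¹) := by
  induction h with
  | b1 => exact ⟨1, Pos.b2.cast (by group) (by group)⟩
  | b2 => exact ⟨1, Pos.b1.cast (by group) (by group)⟩
  | @l p q _ ih => obtain ⟨g, h⟩ := ih; exact ⟨g * q, h.r.cast (by group) (by group)⟩
  | @r p q _ ih => obtain ⟨g, h⟩ := ih; exact ⟨g * p⁻¹, h.l.cast (by group) (by group)⟩

def W (a b : F2) (L : List Bool) : F2 := (L.map fun i => cond i a b).prod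

theorem Pos.word {a b p q : F2} (h : Pos a b p q) :
    (∃ L, L ≠ [] ∧ p = W a b L) ∧ ∃ L, L ≠ [] ∧ q = W a b L := by
  induction h with
  | b1 => exact ⟨⟨[true], by simp, by simp [W]⟩, [false], by simp, by simp [W]⟩
  | b2 => exact ⟨⟨[false], by simp, by simp [W]⟩, [true], by simp, by simp [W]⟩
  | l _ ih =>
    obtain ⟨⟨L, h1, rfl⟩, M, h2, rfl⟩ := ih
    exact ⟨⟨L ++ M, by simp [h1], by simp [W]⟩, M, h2, rfl⟩
  | r _ ih =>
    obtain ⟨⟨L, h1, rfl⟩, M, h2, rfl⟩ := ih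
    exact ⟨⟨L, h1, rfl⟩, L ++ M, by simp [h1], by simp [W]⟩

def Q (u v : F2) : Prop := ∃ g x y b : F2, (x = u ∨ x = u⁻¹) ∧ (y = v ∨ y = v⁻¹) ∧
  (b = of 1 ∨ b = (of 1)⁻¹) ∧ Pos (of 0) b (g * x * g⁻¹) (g * y * g⁻¹)

theorem Q.swap {u v : F2} (h : Q u v) : Q v u := by
  obtain ⟨g, x, y, b, h1, h2, h3, h⟩ := h
  obtain ⟨k, h⟩ := h.swap
  exact ⟨k * g, y, x, b, h2, h1, h3, h.cast (by group) (by group)⟩
theorem Q.inv {u v : F2} (h : Q u v) : Q u⁻¹ v := by
  obtain ⟨g, x, y, b, h1, h2, h3, h⟩ := h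
  exact ⟨g, x, y, b, by simpa [or_comm] using h1, h2, h3, h⟩
theorem Q.conj (k : F2) {u v : F2} (h : Q u v) : Q (k * u * k⁻¹) (k * v * k⁻¹) := by
  obtain ⟨g, x, y, b, h1, h2, h3, h⟩ := h
  refine ⟨g * k⁻¹, k * x * k⁻¹, k * y * k⁻¹, b, ?_, ?_, h3, h.cast (by group) (by group)⟩
  · rcases h1 with rfl | rfl
    exacts [Or.inl rfl, Or.inr (by group)]
  · rcases h2 with rfl | rfl
    exacts [Or.inl rfl, Or.inr (by group)]
theorem Q.cast {p q p' q' : F2} (h : Q p q) (h1 : p' = p) (h2 : q' = q) : Q p' q' := h1 ▸ h2 ▸ h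

theorem Pos.div {b p q : F2} (hb : b = of 1 ∨ b = (of 1)⁻¹) (h : Pos (of 0) b p q) :
    Q (p * q⁻¹) q := by
  have hb' : b⁻¹ = of 1 ∨ b⁻¹ = (of 1)⁻¹ := by rcases hb with rfl | rfl <;> simp
  cases h with
  | b1 => exact ⟨1, _, _, b⁻¹, Or.inl rfl, Or.inr rfl, hb', Pos.b1.l.cast (by group) (by group)⟩
  | b2 => exact ⟨(of 0)⁻¹, _, _, b⁻¹, Or.inr rfl, Or.inl rfl, hb',
      Pos.b2.l.cast (by group) (by group)⟩
  | l h => exact ⟨1, _, _, b, Or.inl rfl, Or.inl rfl, hb, h.cast (by group) (by group)⟩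
  | r h =>
    obtain ⟨g, h⟩ := h.swap
    exact ⟨g * p⁻¹, _, _, b, Or.inr rfl, Or.inl rfl, hb, h.r.cast (by group) (by group)⟩

theorem Q.mul {u v : F2} (h : Q u v) : Q (u * v) v := by
  obtain ⟨g, x, y, b, h1 | h1, h2 | h2, h3, h⟩ := h <;> rw [h1, h2] at h
  · exact ⟨g, _, _, b, Or.inl rfl, Or.inl rfl, h3, h.l.cast (by group) rfl⟩
  · exact ((h.div h3).conj g⁻¹).swap.inv.swap.cast (by group) (by group)
  · exact ((h.div h3).conj (v⁻¹ * g⁻¹)).inv.cast (by group) (by group)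
  · exact ⟨g * v, _, _, b, Or.inr rfl, Or.inr rfl, h3, h.l.cast (by group) (by group)⟩

theorem gen_q {u v : F2} (h : Gen u v) : Q u v :=
  nielsen Q (fun _ _ => Q.swap) (fun _ _ => Q.inv) (fun _ _ => Q.mul) (fun g _ _ => Q.conj g)
    ⟨1, _, _, _, Or.inl rfl, Or.inl rfl, Or.inl rfl, Pos.b1.cast (by group) (by group)⟩ u v h

theorem gen_map (e : F2 ≃* F2) : Gen (e (of 0)) (e (of 1)) := by
  have h : Subgroup.closure {(of 0 : F2), of 1} = ⊤ := by
    rw [← closure_range_of (Fin 2)]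
    congr 1
    ext x
    simp [Fin.exists_fin_two, eq_comm]
  have := congrArg (Subgroup.map e.toMonoidHom) h
  rwa [MonoidHom.map_closure, Set.image_pair, Subgroup.map_top_of_surjective _ e.surjective] at this

def phi (N : ℕ) : F2 ≃* F2 := MonoidHom.toMulEquiv
  (lift ![of 0 ^ (N + 1) * of 1, (of 0 ^ N * of 1)⁻¹])
  (lift ![of 0 * of 1, ((of 0 * of 1) ^ N)⁻¹ * (of 1)⁻¹])
  (by
    ext i
    fin_cases i <;> simp [pow_succ', ← mul_assoc])
  (by
    have h : (of 0 ^ (N + 1) * of 1 * (of 0 ^ N * of 1)⁻¹ : F2) = of 0 := by group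
    ext i
    fin_cases i
    · simpa using h
    · simp only [MonoidHom.comp_apply, Fin.mk_one, lift_apply_of, Matrix.cons_val_one,
        Matrix.cons_val_zero, _root_.map_mul, _root_.map_inv, map_pow, h]
      simp)

def th : F2 ≃* F2 := MonoidHom.toMulEquiv (lift ![of 0, of 0 * of 1]) (lift ![of 0, (of 0)⁻¹ * of 1])
  (by ext i; fin_cases i <;> simp) (by ext i; fin_cases i <;> simp)

def chi (k : Fin 2) : F2 →* Multiplicative ℤ := lift fun i => .ofAdd (if i = k then 1 else 0)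

theorem W_map (e : F2 →* F2) (a b : F2) (L : List Bool) : e (W a b L) = W (e a) (e b) L := by
  induction L with
  | nil => simp [W]
  | cons i L ih => unfold W at ih ⊢; cases i <;> simp [ih]

theorem chi_ge (N : ℕ) (L : List Bool) (hL : L ≠ []) :
    (N : ℤ) ≤ (chi 0 (W (of 0 ^ (N + 1) * of 1) (of 0 ^ N * of 1) L)).toAdd := by
  have key : ∀ L : List Bool, (N : ℤ) * L.length ≤
      (chi 0 (W (of 0 ^ (N + 1) * of 1) (of 0 ^ N * of 1) L)).toAdd := by
    intro L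
    induction L with
    | nil => simp [W]
    | cons i L ih =>
      unfold W at ih ⊢
      cases i <;> simp [chi] at ih ⊢ <;> linarith
  have := key L
  have h2 : (1 : ℤ) ≤ L.length := by exact_mod_cast List.length_pos_iff.2 hL
  nlinarith [Int.natCast_nonneg N]

theorem prim (S : Finset F2) (hS : ∀ g ∈ S, ∃ b : FreeGroupBasis (Fin 2) F2, ∃ i, b i = g) :
    ∃ ψ : F2 ≃* F2, ∀ g ∈ S, ∃ h : F2, ∃ L, ψ (h * g * h⁻¹) = W (of 0) (of 0 * of 1) L ∨
      ψ (h * g⁻¹ * h⁻¹) = W (of 0) (of 0 * of 1) L := by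
  let N := S.sup (fun g => (chi 0 g).toAdd.natAbs) + 1
  refine ⟨(phi N).symm.trans th, fun g hg => ?_⟩
  have hN : (chi 0 g).toAdd.natAbs < N :=
    Nat.lt_succ_of_le (Finset.le_sup (f := fun g => (chi 0 g).toAdd.natAbs) hg)
  obtain ⟨b, i, hb⟩ := hS g hg
  obtain ⟨v, hv⟩ : ∃ v, Q ((phi N).symm g) v := by
    have := gen_q (gen_map (b.repr.symm.trans (phi N).symm))
    fin_cases i
    · exact ⟨_, this.cast (by rw [← hb]; rfl) rfl⟩
    · exact ⟨_, this.swap.cast (by rw [← hb]; rfl) rfl⟩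
  obtain ⟨k, x, y, c, hx, -, hc, h⟩ := hv
  obtain ⟨L, hL, h⟩ := h.word.1
  rcases hc with rfl | rfl
  · refine ⟨phi N k, L, ?_⟩
    have h2 : th (k * x * k⁻¹) = W (of 0) (of 0 * of 1) L := by
      rw [h]; exact (W_map th.toMonoidHom _ _ L).trans (by simp [th])
    rcases hx with rfl | rfl
    · left; simpa using h2
    · right; simpa using h2
  · exfalso
    have h2 : phi N (k * x * k⁻¹) = W (of 0 ^ (N + 1) * of 1) (of 0 ^ N * of 1) L := by
      rw [h]; exact (W_map (phi N).toMonoidHom _ _ L).trans (by simp [phi])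
    have h3 := chi_ge N L hL
    rw [← h2] at h3
    rcases hx with rfl | rfl <;> simp at h3 <;> omega

end Pool.Agent.H.MP_9fd1ce_al
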