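import Mathlib

namespace Pool.Agent.H.MP_9fd1ce_al

/-- A point of `CV₂`: a minimal free isometric action of the free group of rank two on a
simplicial tree with positive edge lengths, of co-volume one. -/
structure CVTree where
  V : Type
  G : SimpleGraph V
  len : Sym2 V → ℝ
  act : FreeGroup (Fin 2) →* Equiv.Perm V
  tree : G.IsTree
  pos : ∀ u v, G.Adj u v → 0 < len s(u, v)
  adj : ∀ g u v, G.Adj u v → G.Adj (act g u) (act g v)
  iso : ∀ g u v, G.Adj u v → len s(act g u, act g v) = len s(u, v)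
  free : ∀ g v, act g v = v → g = 1
  minimal : ∀ S : Set V, (G.induce S).Connected → (∀ g, ∀ v ∈ S, act g v ∈ S) → S = Set.univ
  covol : ∃ E : Finset (Sym2 V), (∀ e ∈ E, e ∈ G.edgeSet) ∧
    (∀ e ∈ G.edgeSet, ∃! e', e' ∈ E ∧ ∃ g, e = e'.map (act g)) ∧ ∑ e ∈ E, len e = 1

/-- Path metric on the vertices. -/
noncomputable def CVTree.dist (T : CVTree) (u v : T.V) : ℝ :=
  ⨅ p : T.G.Walk u v, (p.edges.map T.len).sum

/-- Translation length. -/
noncomputable def CVTree.tl (T : CVTree) (g : FreeGroup (Fin 2)) : ℝ :=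
  ⨅ v : T.V, T.dist v (T.act g v)

end Pool.Agent.H.MP_9fd1ce_al
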