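import Mathlib
import Pool.Agent.H.MP_9fd1ce_al.Defs
import Pool.Agent.H.MP_9fd1ce_al.A

set_option autoImplicit false

namespace Pool.Agent.H.MP_9fd1ce_al
open FreeGroup Pool.Agent.Lib.helper22.Niel SimpleGraph

namespace CVTree
variable (T : CVTree)

theorem wl_nonneg {u v : T.V} (p : T.G.Walk u v) : 0 ≤ (p.edges.map T.len).sum := by
  induction p with
  | nil => simp
  | cons h p ih => have := T.pos _ _ h; simp only [Walk.edges_cons, List.map_cons, List.sum_cons]; linarith

instance (u v : T.V) : Nonempty (T.G.Walk u v) := T.tree.connected.preconnected u v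
instance : Nonempty T.V := T.tree.connected.nonempty

theorem dist_le {u v : T.V} (p : T.G.Walk u v) : T.dist u v ≤ (p.edges.map T.len).sum :=
  ciInf_le ⟨0, by rintro _ ⟨p, rfl⟩; exact T.wl_nonneg p⟩ p
theorem dist_nonneg (u v : T.V) : 0 ≤ T.dist u v := le_ciInf fun p => T.wl_nonneg p
theorem dist_tri (u v w : T.V) : T.dist u w ≤ T.dist u v + T.dist v w := by
  refine le_ciInf_add_ciInf fun p q => (T.dist_le (p.append q)).trans (le_of_eq ?_)
  simp
theorem dist_symm (u v : T.V) : T.dist u v = T.dist v u := by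
  have : ∀ u v, T.dist u v ≤ T.dist v u := fun u v => le_ciInf fun p =>
    (T.dist_le p.reverse).trans (le_of_eq (by simp [List.map_reverse]))
  exact le_antisymm (this _ _) (this _ _)
theorem dist_act (g : F2) (u v : T.V) : T.dist (T.act g u) (T.act g v) = T.dist u v := by
  have : ∀ g u v, T.dist (T.act g u) (T.act g v) ≤ T.dist u v := fun g u v => le_ciInf fun p => by
    have : ∃ q : T.G.Walk (T.act g u) (T.act g v),
        (q.edges.map T.len).sum = (p.edges.map T.len).sum := by
      induction p with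
      | nil => exact ⟨.nil, rfl⟩
      | cons h p ih =>
        obtain ⟨q, hq⟩ := ih
        exact ⟨.cons (T.adj g _ _ h) q, by simp [hq, T.iso g _ _ h]⟩
    obtain ⟨q, hq⟩ := this
    exact hq ▸ T.dist_le q
  refine le_antisymm (this _ _ _) ?_
  simpa using this g⁻¹ (T.act g u) (T.act g v)
theorem tl_le (g : F2) (v : T.V) : T.tl g ≤ T.dist v (T.act g v) :=
  ciInf_le ⟨0, by rintro _ ⟨p, rfl⟩; exact T.dist_nonneg _ _⟩ v
theorem tl_conj (h g : F2) : T.tl (h * g * h⁻¹) = T.tl g := by
  have : ∀ h g, T.tl (h * g * h⁻¹) ≤ T.tl g := fun h g => le_ciInf fun v => by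
    refine (T.tl_le _ (T.act h v)).trans (le_of_eq ?_)
    rw [← T.dist_act h v]; simp
  refine le_antisymm (this _ _) ?_
  simpa [mul_assoc] using this h⁻¹ (h * g * h⁻¹)
theorem tl_inv (g : F2) : T.tl g⁻¹ = T.tl g := by
  have : ∀ g, T.tl g⁻¹ ≤ T.tl g := fun g => le_ciInf fun v => by
    refine (T.tl_le _ (T.act g v)).trans (le_of_eq ?_)
    rw [T.dist_symm v]; simp
  refine le_antisymm (this _) ?_
  simpa using this g⁻¹
theorem tl_eq (g : F2) (v : T.V) (a : ℝ) (h : ∀ n : ℕ, T.dist v (T.act (g ^ n) v) = n * a) :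
    T.tl g = a := by
  refine le_antisymm ((T.tl_le g v).trans (by simpa using (h 1).le)) (le_ciInf fun w => ?_)
  have h1 : ∀ n : ℕ, T.dist w (T.act (g ^ n) w) ≤ n * T.dist w (T.act g w) := by
    intro n
    induction n with
    | zero => simpa using T.dist_le (Walk.nil : T.G.Walk w w)
    | succ n ih =>
      have h2 := T.dist_tri w (T.act (g ^ n) w) (T.act (g ^ (n + 1)) w)
      rw [pow_succ, _root_.map_mul, Equiv.Perm.mul_apply, T.dist_act] at h2
      rw [pow_succ, _root_.map_mul, Equiv.Perm.mul_apply]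
      push_cast; linarith
  by_contra hc
  push Not at hc
  obtain ⟨n, hn⟩ := exists_nat_gt (2 * T.dist v w / (a - T.dist w (T.act g w)))
  rw [div_lt_iff₀ (by linarith)] at hn
  have h2 := T.dist_tri v w (T.act (g ^ n) v)
  have h3 := T.dist_tri w (T.act (g ^ n) w) (T.act (g ^ n) v)
  rw [T.dist_act, T.dist_symm w v] at h3
  have := h n
  have := h1 n
  nlinarith
end CVTree

abbrev Lt := Fin 2 × Bool
def fl (l : Lt) : Lt := (l.1, !l.2)
@[simp] theorem fl_fl (l : Lt) : fl (fl l) = l := by simp [fl]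
theorem mk_fl (l : Lt) : mk [fl l] = (mk [l])⁻¹ := by simp [fl, inv_mk, invRev]
attribute [-simp] FreeGroup.inv_mk
theorem mk_ne (l : Lt) : mk [l] ≠ 1 := fun h => by simpa [toWord_mk] using congrArg toWord h

theorem tw (l : Lt) (g : F2) : (mk [l] * g).toWord = l :: g.toWord ∨
    g.toWord = fl l :: (mk [l] * g).toWord := by
  have h : (mk [l] * g).toWord = reduce (l :: g.toWord) := by
    conv_lhs => rw [← mk_toWord (x := g), mul_mk, toWord_mk]
    rfl
  rw [h, reduce.cons, reduce_toWord]
  cases g.toWord with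
  | nil => left; rfl
  | cons a t =>
    simp only
    split_ifs with h1
    · right; congr 1
      obtain ⟨a1, a2⟩ := a
      obtain ⟨l1, l2⟩ := l
      simp_all [fl]
    · left; rfl

section
variable (src : Lt → Bool) (c A B : ℝ)

def gr : SimpleGraph (F2 × Bool) where
  Adj u v := (u.1 = v.1 ∧ u.2 ≠ v.2) ∨ ∃ l, u.2 = src l ∧ v.2 = src (fl l) ∧ v.1 = mk [l] * u.1
  symm := ⟨by
    rintro u v (⟨h1, h2⟩ | ⟨l, h1, h2, h3⟩)
    · exact Or.inl ⟨h1.symm, h2.symm⟩
    · exact Or.inr ⟨fl l, h2, by simpa using h1, by rw [h3, mk_fl]; simp⟩⟩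
  loopless := ⟨by
    rintro u (⟨-, h2⟩ | ⟨l, -, -, h3⟩)
    · exact h2 rfl
    · exact mk_ne l (by simpa using h3)⟩

noncomputable def ln : Sym2 (F2 × Bool) → ℝ := Sym2.lift ⟨fun u v => if u.1 = v.1 then c else
    if u.1 * v.1⁻¹ = of 0 ∨ v.1 * u.1⁻¹ = of 0 then A else B, fun u v => by
  simp only [eq_comm (a := u.1) (b := v.1), or_comm]⟩

def ll (l : Lt) : ℝ := if l.1 = 0 then A else B

theorem ln_bar (g : F2) (i j : Bool) : ln c A B s((g, i), (g, j)) = c := by simp [ln]
theorem ln_let (l : Lt) (g : F2) (i j : Bool) : ln c A B s((g, i), (mk [l] * g, j)) = ll A B l := by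
  have h : ¬ g = mk [l] * g := fun h => mk_ne l (by simpa using h)
  have h2 : ((mk [l])⁻¹ = of 0 ∨ mk [l] = of 0) ↔ l.1 = 0 := by clear h; revert l; decide
  simp only [ln, Sym2.lift_mk, if_neg h, mul_inv_rev, mul_inv_cancel_left, mul_inv_cancel_right,
    h2, ll]

def ht : List Lt → Bool → ℝ
  | [], i => if i = false then 0 else c
  | l :: L, i => (if i = src (fl l) then 0 else c) + ll A B l + ht L (src l)
def nt : List Lt → Bool → ℕ
  | [], i => if i = false then 0 else 1
  | l :: L, i => (if i = src (fl l) then 0 else 1) + 1 + nt L (src l)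
def par (u : F2 × Bool) : F2 × Bool :=
  match u.1.toWord with
  | [] => (u.1, false)
  | l :: _ => if u.2 = src (fl l) then ((mk [l])⁻¹ * u.1, src l) else (u.1, !u.2)

def Up (u v : F2 × Bool) : Prop := par src v = u ∧ nt src u.1.toWord u.2 < nt src v.1.toWord v.2 ∧
  ht src c A B v.1.toWord v.2 = ht src c A B u.1.toWord u.2 + ln c A B s(u, v)

theorem up_let {l : Lt} {g : F2} (h : (mk [l] * g).toWord = l :: g.toWord) :
    Up src c A B (g, src l) (mk [l] * g, src (fl l)) := by
  refine ⟨?_, ?_, ?_⟩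
  · simp [par, h]
  · simp [h, nt]
  · simp only [h, ht, ln_let]; simp [add_comm]

theorem adj_up {u v : F2 × Bool} (h : (gr src).Adj u v) : Up src c A B u v ∨ Up src c A B v u := by
  obtain ⟨g, i⟩ := u
  obtain ⟨k, j⟩ := v
  rcases h with ⟨h1, h2⟩ | ⟨l, h1, h2, h3⟩
  · obtain rfl : g = k := h1
    simp only [Up, ln_bar, par]
    cases hL : g.toWord with
    | nil => cases i <;> cases j <;> simp_all [nt, ht]
    | cons l L =>
      cases i <;> cases j <;> cases hs : src (fl l) <;> simp_all [nt, ht] <;> ring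
  · simp only at h1 h2 h3
    subst h1 h2 h3
    rcases tw l g with h | h
    · exact Or.inl (up_let src c A B h)
    · right
      have := up_let src c A B (l := fl l) (g := mk [l] * g) (by rw [mk_fl]; simpa using h)
      simpa [mk_fl] using this

theorem par_adj (u : F2 × Bool) (h : u ≠ (1, false)) : ∃ v, (gr src).Adj v u ∧ Up src c A B v u := by
  obtain ⟨g, i⟩ := u
  have key : ∀ v, (gr src).Adj v (g, i) → nt src v.1.toWord v.2 ≤ nt src g.toWord i →
      ∃ v, (gr src).Adj v (g, i) ∧ Up src c A B v (g, i) := fun v h1 h2 =>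
    ⟨v, h1, (adj_up src c A B h1).resolve_right fun h3 => absurd h3.2.1 (not_lt.2 h2)⟩
  cases hL : g.toWord with
  | nil =>
    obtain rfl := toWord_eq_nil_iff.1 hL
    cases i
    · exact absurd rfl h
    · exact key (1, false) (Or.inl ⟨rfl, by simp⟩) (by simp [nt])
  | cons l L =>
    by_cases hi : i = src (fl l)
    · refine key ((mk [l])⁻¹ * g, src l) (Or.inr ⟨l, rfl, hi, by simp⟩) ?_
      rw [← mk_fl]
      rcases tw (fl l) g with h1 | h1
      · have hr : FreeGroup.IsReduced (mk [fl l] * g).toWord := isReduced_toWord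
        rw [h1, hL] at hr
        simpa [fl] using (List.isChain_cons_cons.1 hr).1
      · rw [hL] at h1
        rw [hL, ← (List.cons.inj h1).2, nt]; dsimp only; omega
    · refine key (g, src (fl l)) (Or.inl ⟨rfl, Ne.symm hi⟩) ?_
      simp [hL, nt]

theorem walk_root (u : F2 × Bool) : ∃ p : (gr src).Walk u (1, false),
    (p.edges.map (ln c A B)).sum = ht src c A B u.1.toWord u.2 := by
  induction hn : nt src u.1.toWord u.2 using Nat.strong_induction_on generalizing u with
  | _ n ih =>
  by_cases h : u = (1, false)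
  · subst h; exact ⟨.nil, by simp [ht]⟩
  · obtain ⟨v, h1, -, h2, h3⟩ := par_adj src c A B u h
    obtain ⟨p, hp⟩ := ih _ (hn ▸ h2) v rfl
    exact ⟨.cons h1.symm p, by simp [hp, h3, Sym2.eq_swap, add_comm]⟩

theorem gr_tree : (gr src).IsTree := by
  classical
  refine ⟨⟨fun u v => ?_⟩, fun v p hp => ?_⟩
  · obtain ⟨p, -⟩ := walk_root src 0 0 0 u
    obtain ⟨q, -⟩ := walk_root src 0 0 0 v
    exact ⟨p.append q.reverse⟩
  · obtain ⟨m, hm, hmax⟩ := p.support.toFinset.exists_max_image
      (fun u => nt src u.1.toWord u.2) ⟨v, by simp⟩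
    have hm' : m ∈ p.support := by simpa using hm
    have hq := hp.rotate hm'
    have key : ∀ w, (gr src).Adj w m → w ∈ (p.rotate m hm').support → par src m = w := by
      intro w h1 h2
      have h3 : w ∈ p.support := (Walk.mem_support_rotate_iff _ _ _).1 h2
      exact ((adj_up src 0 0 0 h1).resolve_right fun h4 =>
        absurd h4.2.1 (not_lt.2 (hmax w (by simpa using h3)))).1
    exact hq.snd_ne_penultimate ((key _ (Walk.adj_snd hq.not_nil).symm
      (Walk.getVert_mem_support _ _)).symm.trans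
      (key _ (Walk.adj_penultimate hq.not_nil) (Walk.getVert_mem_support _ _)))

def ac (ψ : F2 ≃* F2) : F2 →* Equiv.Perm (F2 × Bool) where
  toFun g := (Equiv.mulRight (ψ g)⁻¹).prodCongr (Equiv.refl _)
  map_one' := by ext u <;> simp
  map_mul' g h := by ext u <;> simp [mul_assoc]

theorem ac_apply (ψ : F2 ≃* F2) (g k : F2) (i : Bool) : ac ψ g (k, i) = (k * (ψ g)⁻¹, i) := rfl
theorem ac_symm (ψ : F2 ≃* F2) (g k : F2) (i : Bool) : ac ψ (ψ.symm g⁻¹) (k, i) = (k * g, i) := by
  rw [ac_apply, MulEquiv.apply_symm_apply, inv_inv]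

theorem chi_step {i : Bool} {u v : F2 × Bool} (a : u.2 = i) (b : v.2 = i)
    (hsrc : ∀ l, src l = src (fl l) → src l = decide (l.1 = 1)) (h : (gr src).Adj u v) :
    chi (cond i 0 1) u.1 = chi (cond i 0 1) v.1 := by
  rcases h with ⟨h, -⟩ | ⟨l, h4, h5, h6⟩
  · rw [h]
  · have h7 := hsrc l (by rw [← h4, ← h5, a, b])
    have h8 : i = decide (l.1 = 1) := by rw [← a, h4, h7]
    have : ∀ l : Lt, chi (cond (decide (l.1 = 1)) 0 1) (mk [l]) = 1 := by decide
    rw [h6, _root_.map_mul, h8, this, one_mul]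

variable (ψ : F2 ≃* F2) (hc : 0 < c) (hA : 0 < A) (hB : 0 < B) (h1 : c ≠ A) (h2 : c ≠ B)
  (h3 : A ≠ B) (hs : c + A + B = 1) (hsrc : ∀ l, src l = src (fl l) → src l = decide (l.1 = 1))

theorem ln_ac (g : F2) (e : Sym2 (F2 × Bool)) : ln c A B (e.map (ac ψ g)) = ln c A B e := by
  induction e using Sym2.ind with
  | _ u v =>
    obtain ⟨k, i⟩ := u
    obtain ⟨m, j⟩ := v
    simp [ln, ac_apply, mul_assoc]

include hsrc in
theorem min_thm : ∀ S : Set (F2 × Bool), ((gr src).induce S).Connected →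
    (∀ g, ∀ v ∈ S, ac ψ g v ∈ S) → S = Set.univ := by
  intro S hS hinv
  have all : ∀ k i, (k, i) ∈ S → ∀ m, (m, i) ∈ S := fun k i h m => by
    have := hinv (ψ.symm (m⁻¹ * k)) _ h
    rw [ac_apply, MulEquiv.apply_symm_apply] at this
    simpa using this
  obtain ⟨⟨⟨k, i⟩, hk⟩⟩ := hS.nonempty
  by_cases h : (1, !i) ∈ S
  · ext ⟨m, j⟩
    simp only [Set.mem_univ, iff_true]
    by_cases hj : j = i
    · exact hj ▸ all k i hk m
    · exact (by cases i <;> cases j <;> simp_all : (!i) = j) ▸ all _ _ h m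
  · exfalso
    have side : ∀ u ∈ S, u.2 = i := by
      rintro ⟨m, j⟩ hu
      by_contra hj
      exact h ((by cases i <;> cases j <;> simp_all : j = !i) ▸ all _ _ hu 1)
    let z : Fin 2 := cond i 0 1
    have key : ∀ (u v : S) (p : ((gr src).induce S).Walk u v), chi z u.1.1 = chi z v.1.1 := by
      intro u v p
      induction p with
      | nil => rfl
      | @cons u v w h p ih =>
        exact (chi_step src (side _ u.2) (side _ v.2) hsrc h).trans ih
    obtain ⟨p⟩ := hS.preconnected ⟨(1, i), all k i hk 1⟩ ⟨(of z, i), all k i hk _⟩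
    have := key _ _ p
    simp [chi] at this
    exact absurd this (by decide)

include h1 h2 h3 hs in
theorem cov_thm : ∃ E : Finset (Sym2 (F2 × Bool)), (∀ e ∈ E, e ∈ (gr src).edgeSet) ∧
    (∀ e ∈ (gr src).edgeSet, ∃! e', e' ∈ E ∧ ∃ g, e = e'.map (ac ψ g)) ∧
      ∑ e ∈ E, ln c A B e = 1 := by
  classical
  let e : Lt → Sym2 (F2 × Bool) := fun l => s((1, src l), (mk [l] * 1, src (fl l)))
  have l0 : ln c A B s((1, false), (1, true)) = c := ln_bar ..
  have l1 : ln c A B (e (0, true)) = A := by simp only [e, ln_let]; simp [ll]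
  have l2 : ln c A B (e (1, true)) = B := by simp only [e, ln_let]; simp [ll]
  have n1 : s((1, false), (1, true)) ≠ e (0, true) := fun h => h1 (by rw [← l0, h, l1])
  have n2 : s((1, false), (1, true)) ≠ e (1, true) := fun h => h2 (by rw [← l0, h, l2])
  have n3 : e (0, true) ≠ e (1, true) := fun h => h3 (by rw [← l1, h, l2])
  refine ⟨{s((1, false), (1, true)), e (0, true), e (1, true)}, ?_, ?_, ?_⟩
  · intro x hx
    simp only [Finset.mem_insert, Finset.mem_singleton] at hx
    rcases hx with rfl | rfl | rfl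
    · exact Or.inl ⟨rfl, by simp⟩
    · exact Or.inr ⟨_, rfl, rfl, rfl⟩
    · exact Or.inr ⟨_, rfl, rfl, rfl⟩
  · intro x hx
    refine existsUnique_of_exists_of_unique ?_ ?_
    · induction x using Sym2.ind with
      | _ u v =>
        obtain ⟨k, i⟩ := u
        obtain ⟨m, j⟩ := v
        rcases hx with ⟨h, h'⟩ | ⟨⟨l, b⟩, a1, a2, h⟩
        · obtain rfl : k = m := h
          refine ⟨s((1, false), (1, true)), by simp, ψ.symm k⁻¹, ?_⟩
          rw [Sym2.map_mk, ac_symm, ac_symm]
          cases i <;> cases j <;> simp_all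
        · simp only at a1 a2 h
          subst a1 a2 h
          cases b
          · refine ⟨e (l, true), by fin_cases l <;> simp, ψ.symm (mk [(l, false)] * k)⁻¹, ?_⟩
            have : mk [(l, true)] = (mk [(l, false)] : F2)⁻¹ := mk_fl (l, false)
            simp only [e]
            rw [Sym2.map_mk, ac_symm, ac_symm]
            simp [this, fl]
          · refine ⟨e (l, true), by fin_cases l <;> simp, ψ.symm k⁻¹, ?_⟩
            simp only [e]
            rw [Sym2.map_mk, ac_symm, ac_symm]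
            simp
    · rintro y z ⟨hy, g, rfl⟩ ⟨hz, k, h⟩
      have := congrArg (ln c A B) h
      rw [ln_ac, ln_ac] at this
      simp only [Finset.mem_insert, Finset.mem_singleton] at hy hz
      rcases hy with rfl | rfl | rfl <;> rcases hz with rfl | rfl | rfl <;>
        first | rfl | (exfalso; simp only [l0, l1, l2] at this; simp_all)
  · rw [Finset.sum_insert (by simp [n1, n2]), Finset.sum_insert (by simp [n3]),
      Finset.sum_singleton, l0, l1, l2, ← hs, add_assoc]

noncomputable def mkT : CVTree where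
  V := F2 × Bool
  G := gr src
  len := ln c A B
  act := ac ψ
  tree := gr_tree src
  pos := by
    rintro ⟨g, i⟩ ⟨k, j⟩ (⟨h, -⟩ | ⟨l, -, -, h⟩)
    · obtain rfl : g = k := h
      rwa [ln_bar]
    · obtain rfl : k = mk [l] * g := h
      rw [ln_let, ll]; split_ifs <;> assumption
  adj := by
    rintro g ⟨k, i⟩ ⟨m, j⟩ (⟨h, h'⟩ | ⟨l, a, b, h⟩)
    · exact Or.inl ⟨congrArg (· * (ψ g)⁻¹) h, h'⟩
    · exact Or.inr ⟨l, a, b, by simp only [ac_apply] at h ⊢; rw [h, mul_assoc]⟩
  iso g u v _ := ln_ac c A B ψ g s(u, v)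
  free := by
    rintro g ⟨k, i⟩ h
    simpa [ac_apply] using h
  minimal := min_thm src ψ hsrc
  covol := cov_thm src c A B ψ h1 h2 h3 hs

theorem dist_root (u : F2 × Bool) : (mkT src c A B ψ hc hA hB h1 h2 h3 hs hsrc).dist u (1, false) =
    ht src c A B u.1.toWord u.2 := by
  refine le_antisymm ?_ (le_ciInf fun p => ?_)
  · obtain ⟨p, hp⟩ := walk_root src c A B u
    exact hp ▸ (mkT src c A B ψ hc hA hB h1 h2 h3 hs hsrc).dist_le p
  · have key : ∀ (u v : F2 × Bool) (p : (gr src).Walk u v), ht src c A B u.1.toWord u.2 ≤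
        (p.edges.map (ln c A B)).sum + ht src c A B v.1.toWord v.2 := by
      intro u v p
      induction p with
      | nil => simp
      | @cons u v w h p ih =>
        have := (mkT src c A B ψ hc hA hB h1 h2 h3 hs hsrc).pos u v h
        change 0 < ln c A B s(u, v) at this
        simp only [Walk.edges_cons, List.map_cons, List.sum_cons]
        rcases adj_up src c A B h with h | h
        · have := h.2.2; linarith
        · have := h.2.2; rw [Sym2.eq_swap] at this; linarith
    have := key _ _ p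
    simp only [toWord_one, ht, if_true, add_zero] at this
    exact this

theorem tl_pos (g : F2) (L : List Lt) (hL : ∀ l ∈ L, l.2 = true) (hg : ψ g = mk L) (a : ℝ)
    (ha : ∀ n : ℕ, ht src c A B (List.replicate n L).flatten false = n * a) :
    (mkT src c A B ψ hc hA hB h1 h2 h3 hs hsrc).tl g = a := by
  rw [← CVTree.tl_inv]
  refine CVTree.tl_eq _ _ (1, false) a fun n => ?_
  rw [CVTree.dist_symm, dist_root, ← ha]
  congr 1
  change (1 * (ψ (g⁻¹ ^ n))⁻¹).toWord = _
  rw [one_mul, map_pow, _root_.map_inv, inv_pow, inv_inv, hg, pow_mk, toWord_mk]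
  refine FreeGroup.IsReduced.reduce_eq (List.Pairwise.isChain (List.pairwise_of_forall_mem_list
    fun x hx y hy _ => ?_))
  simp only [List.mem_flatten, List.mem_replicate] at hx hy
  obtain ⟨_, ⟨-, h4⟩, hx⟩ := hx
  obtain ⟨_, ⟨-, h5⟩, hy⟩ := hy
  rw [hL x (h4 ▸ hx), hL y (h5 ▸ hy)]
end

def wl (L : List Bool) : List Lt := L.flatMap fun i => cond i [(0, true)] [(0, true), (1, true)]
noncomputable def lam (L : List Bool) : ℝ := (L.map fun i => cond i (1 / 2 : ℝ) (11 / 10)).sum
def sB (l : Lt) : Bool := decide (l.1 = 1)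
def sT (l : Lt) : Bool := !l.2

theorem wl_mk (L : List Bool) : W (of 0) (of 0 * of 1) L = mk (wl L) := by
  induction L with
  | nil => rfl
  | cons i L ih =>
    unfold W wl at ih ⊢
    rw [List.map_cons, List.prod_cons, ih, List.flatMap_cons, ← mul_mk]
    cases i <;> rfl

theorem wl_rep (L : List Bool) (n : ℕ) : (List.replicate n (wl L)).flatten =
    wl (List.replicate n L).flatten ∧ lam (List.replicate n L).flatten = n * lam L := by
  induction n with
  | zero => simp [wl, lam]
  | succ n ih =>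
    unfold wl lam at ih ⊢
    simp only [List.replicate_succ, List.flatten_cons, List.flatMap_append, List.map_append,
      List.sum_append, ih.1, ih.2, true_and]
    push_cast; ring

theorem htB (L : List Bool) : ht sB (1 / 10) (1 / 2) (2 / 5) (wl L) false = lam L ∧
    ht sB (1 / 10) (1 / 2) (2 / 5) (wl L) true = 1 / 10 + lam L := by
  induction L with
  | nil => simp [wl, lam, ht]
  | cons i L ih =>
    unfold wl lam at ih ⊢
    cases i <;> simp [ht, sB, fl, ll] at ih ⊢ <;> constructor <;> linarith [ih.1, ih.2]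

theorem htT (L : List Bool) : ht sT (1 / 10) (2 / 5) (1 / 2) (wl L) false = lam L := by
  induction L with
  | nil => simp [wl, lam, ht]
  | cons i L ih =>
    unfold wl lam at ih ⊢
    cases i <;> simp [ht, sT, fl, ll] at ih ⊢ <;> linarith

noncomputable def TB (ψ : F2 ≃* F2) : CVTree := mkT sB (1 / 10) (1 / 2) (2 / 5) ψ (by norm_num)
  (by norm_num) (by norm_num) (by norm_num) (by norm_num) (by norm_num) (by norm_num) (by decide)
noncomputable def TT (ψ : F2 ≃* F2) : CVTree := mkT sT (1 / 10) (2 / 5) (1 / 2) ψ (by norm_num)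
  (by norm_num) (by norm_num) (by norm_num) (by norm_num) (by norm_num) (by norm_num) (by decide)

theorem same (ψ : F2 ≃* F2) (g : F2) (L : List Bool) (h : ψ g = W (of 0) (of 0 * of 1) L) :
    (TB ψ).tl g = (TT ψ).tl g := by
  have hL : ∀ l ∈ wl L, l.2 = true := by
    intro l hl
    obtain ⟨i, -, hi⟩ := List.mem_flatMap.1 hl
    cases i <;> simp at hi
    · rcases hi with rfl | rfl <;> rfl
    · rw [hi]
  rw [wl_mk] at h
  rw [TB, TT, tl_pos _ _ _ _ _ _ _ _ _ _ _ _ _ g _ hL h (lam L) fun n => by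
      rw [(wl_rep L n).1, (htB _).1, (wl_rep L n).2],
    tl_pos _ _ _ _ _ _ _ _ _ _ _ _ _ g _ hL h (lam L) fun n => by
      rw [(wl_rep L n).1, htT, (wl_rep L n).2]]

theorem diff (ψ : F2 ≃* F2) : (TB ψ).tl (ψ.symm (of 1)) ≠ (TT ψ).tl (ψ.symm (of 1)) := by
  have h1 : (TT ψ).tl (ψ.symm (of 1)) = 3 / 5 := by
    refine tl_pos _ _ _ _ _ _ _ _ _ _ _ _ _ _ [(1, true)] (by simp) (by simp; rfl) _ fun n => ?_
    induction n with
    | zero => simp [ht]
    | succ n ih =>
      simp only [List.replicate_succ, List.flatten_cons, List.singleton_append, ht]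
      simp [sT, fl, ll] at ih ⊢
      linarith
  have h2 : (TB ψ).tl (ψ.symm (of 1)) ≤ 2 / 5 := by
    have h3 : (gr sB).Adj (1, true) (mk [(1, false)] * 1, true) := Or.inr ⟨(1, false), rfl, rfl, rfl⟩
    have h4 := (TB ψ).dist_le (.cons h3 .nil)
    have h5 : (TB ψ).act (ψ.symm (of 1)) (1, true) = (mk [(1, false)] * 1, true) := by
      change (1 * (ψ (ψ.symm (of 1)))⁻¹, true) = _
      simp; rfl
    refine ((TB ψ).tl_le _ (1, true)).trans (h5 ▸ h4.trans (le_of_eq ?_))
    change ln _ _ _ s((1, true), (mk [(1, false)] * 1, true)) + 0 = _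
    rw [ln_let]; simp [ll]
  rw [h1]; linarith

end Pool.Agent.H.MP_9fd1ce_al
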